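import Mathlib
import Pool.Agent.T6.H46.Toe.Meas

/-!
# A Toeplitz system which is partially rigid but not rigid (MP_6420b1_an)

There is a Toeplitz sequence over a two-letter alphabet such that every ergodic shift-invariant
probability measure on its orbit closure (and there is one) is partially rigid and is not rigid.

The sequence is a Thue-Morse word with holes: at level `k` a block consists of `2 ^ (k + 7)` blocks
of level `k - 1`, arranged by the Thue-Morse word or by its complement, except that the first and
the last one are the same in the two types of blocks.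
-/

set_option autoImplicit false

open MeasureTheory Filter Topology

namespace Pool.Agent.Results.MP_6420b1_an.ToeplitzPartiallyRigid

/-- The left shift of two-sided sequences. -/
def shift {A : Type} (x : ℤ → A) : ℤ → A := fun n => x (n + 1)

/-- Toeplitz sequences: not periodic, and every coordinate is repeated along an arithmetic
progression. -/
def IsToeplitz {A : Type} (x : ℤ → A) : Prop :=
  (¬ ∃ p : ℕ, 1 ≤ p ∧ ∀ n : ℤ, x (n + p) = x n) ∧
    ∀ n : ℤ, ∃ p : ℕ, 1 ≤ p ∧ ∀ k : ℤ, x (n + k * p) = x n

/-- The orbit closure of a two-sided sequence under the powers of the shift. -/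
def orbitClosure {A : Type} [TopologicalSpace A] (x : ℤ → A) : Set (ℤ → A) :=
  closure {y | ∃ k : ℤ, y = fun n => x (n + k)}

/-- An ergodic shift-invariant probability measure on the orbit closure of `x`, seen as a measure
on all sequences which gives mass zero to the complement of the orbit closure. -/
structure IsErgodicOn {A : Type} [TopologicalSpace A] [MeasurableSpace A] (x : ℤ → A)
    (μ : Measure (ℤ → A)) : Prop where
  prob : μ Set.univ = 1
  carried : μ (orbitClosure x)ᶜ = 0
  ergodic : Ergodic shift μ

/-- Rigidity. -/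
def Rigid {A : Type} [MeasurableSpace A] (μ : Measure (ℤ → A)) : Prop :=
  ∃ n : ℕ → ℕ, Tendsto n atTop atTop ∧ ∀ B : Set (ℤ → A), MeasurableSet B →
    Tendsto (fun k => μ.real (shift^[n k] '' B ∩ B)) atTop (𝓝 (μ.real B))

/-- Being partially rigid: some constant `δ > 0` and some sequence of times going to infinity serve
all Borel sets. -/
def PartiallyRigid {A : Type} [MeasurableSpace A] (μ : Measure (ℤ → A)) : Prop :=
  ∃ δ : ℝ, 0 < δ ∧ ∃ n : ℕ → ℕ, Tendsto n atTop atTop ∧
    ∀ B : Set (ℤ → A), MeasurableSet B →
      δ * μ.real B ≤ liminf (fun k => μ.real (shift^[n k] '' B ∩ B)) atTop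

open Pool.Agent.T6.H46.Toe

theorem shift_eq : (shift : (ℤ → Bool) → (ℤ → Bool)) = sh := rfl

theorem closure_eq : orbitClosure xx = XX := by
  unfold orbitClosure XX
  congr 1
  ext y
  constructor
  · rintro ⟨k, rfl⟩
    exact ⟨k, rfl⟩
  · rintro ⟨k, rfl⟩
    exact ⟨k, rfl⟩

theorem inv_of {μ : Measure (ℤ → Bool)} (h : IsErgodicOn xx μ) : Inv μ where
  prob := ⟨h.prob⟩
  pres := h.ergodic.toMeasurePreserving
  supp := by
    have := h.carried
    rwa [closure_eq] at this

theorem sh_inj (n : ℕ) : Function.Injective sh^[n] := by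
  intro z z' h
  funext a
  have := congrFun h (a - n)
  rw [sh_iter, sh_iter] at this
  simpa using this

theorem sh_surj (n : ℕ) : Function.Surjective sh^[n] := by
  intro z
  refine ⟨fun a => z (a - n), ?_⟩
  funext a
  rw [sh_iter]
  simp

theorem image_eq (n : ℕ) (B : Set (ℤ → Bool)) :
    sh^[n] '' B = (fun (z : ℤ → Bool) (a : ℤ) => z (a - n)) ⁻¹' B := by
  ext z
  constructor
  · rintro ⟨w, hw, rfl⟩
    change (fun a => (sh^[n] w) (a - n)) ∈ B
    have : (fun a => (sh^[n] w) (a - n)) = w := by
      funext a
      rw [sh_iter]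
      simp
    rw [this]
    exact hw
  · intro hz
    refine ⟨_, hz, ?_⟩
    funext a
    rw [sh_iter]
    simp

theorem image_measurable (n : ℕ) {B : Set (ℤ → Bool)} (hB : MeasurableSet B) :
    MeasurableSet (sh^[n] '' B) := by
  rw [image_eq]
  have hm : Measurable (fun (z : ℤ → Bool) (a : ℤ) => z (a - n)) :=
    measurable_pi_lambda _ fun a => measurable_pi_apply (a - n)
  exact hm hB

theorem meas_eq {μ : Measure (ℤ → Bool)} (h : Inv μ) (n : ℕ) {B : Set (ℤ → Bool)}
    (hB : MeasurableSet B) : μ.real (sh^[n] '' B ∩ B) = μ.real (B ∩ sh^[n] ⁻¹' B) := by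
  have h1 : sh^[n] ⁻¹' (sh^[n] '' B ∩ B) = B ∩ sh^[n] ⁻¹' B := by
    rw [Set.preimage_inter, Set.preimage_image_eq B (sh_inj n)]
  unfold Measure.real
  rw [← h1, (h.pres.iterate n).measure_preimage
    ((image_measurable n hB).inter hB).nullMeasurableSet]

theorem exists_erg : ∃ μ : Measure (ℤ → Bool), IsErgodicOn xx μ := by
  have hcl : IsClosed XX := isClosed_closure
  have hmaps : Set.MapsTo sh XX XX := by
    intro y hy
    have h2 : sh y ∈ closure (sh '' (Set.range fun k : ℤ => fun n => xx (n + k))) :=
      image_closure_subset_closure_image sh_cont ⟨y, hy, rfl⟩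
    refine closure_mono ?_ h2
    rintro _ ⟨_, ⟨k, rfl⟩, rfl⟩
    refine ⟨k + 1, ?_⟩
    funext n
    change xx (n + (k + 1)) = xx (n + 1 + k)
    congr 1; ring
  have : CompactSpace XX := isCompact_iff_compactSpace.1 hcl.isCompact
  let _ : MetricSpace XX := TopologicalSpace.metrizableSpaceMetric XX
  let f : XX → XX := fun y => ⟨sh y, hmaps y.2⟩
  have hf : Continuous f := Continuous.subtype_mk (sh_cont.comp continuous_subtype_val) _
  have hx : xx ∈ XX := subset_closure ⟨0, by simp⟩
  have herg : Ergodic (id : Unit → Unit) (Measure.dirac ()) :=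
    ⟨MeasurePreserving.id _, ⟨fun s _ _ => EventuallyConst.of_subsingleton_left⟩⟩
  obtain ⟨ν, hν, hνerg, -⟩ := Pool.Agent.TH525.PF.exists_erg_lift (B := Unit) hf (T := id)
    (π := fun _ => ()) continuous_const (fun _ => rfl) herg (μ := Measure.dirac (⟨xx, hx⟩ : XX))
    (by rw [Measure.map_dirac' measurable_const])
  refine ⟨ν.map Subtype.val, ⟨?_, ?_, ?_⟩⟩
  · rw [Measure.map_apply measurable_subtype_coe MeasurableSet.univ, Set.preimage_univ,
      measure_univ]
  · rw [closure_eq, Measure.map_apply measurable_subtype_coe hcl.measurableSet.compl]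
    convert measure_empty (μ := ν)
    ext y
    simp
  · exact (measurable_subtype_coe.measurePreserving ν).ergodic_of_ergodic_semiconj hνerg
      sh_cont.measurable (fun y => rfl)

/-- **Theorem.** There is a Toeplitz sequence on two letters whose orbit closure carries an
ergodic invariant probability measure, and such that every ergodic invariant probability measure
on the orbit closure is partially rigid (the proof gives the constant `1 / 8`) and not rigid. -/
theorem result : ∃ x : ℤ → Bool, IsToeplitz x ∧ (∃ μ, IsErgodicOn x μ) ∧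
    ∀ μ, IsErgodicOn x μ → PartiallyRigid μ ∧ ¬ Rigid μ := by
  refine ⟨xx, ⟨?_, xx_toeplitz⟩, exists_erg, fun μ hμ => ?_⟩
  · rintro ⟨p, hp, hper⟩
    obtain ⟨L, hL, h⟩ := xx_ne (n := p) hp
    have h0 := h 0
    rw [Finset.filter_eq_empty_iff.2 (fun i _ => by rw [not_not]; exact (hper _).symm)] at h0
    simp at h0
    omega
  · have hi := inv_of hμ
    have hprob := hi.prob
    refine ⟨⟨1 / 8, by norm_num, P, ?_, fun B hB => ?_⟩, ?_⟩
    · refine tendsto_atTop_mono (fun k => ?_) tendsto_id
      obtain ⟨N, hN, hkN⟩ := P_two_pow k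
      rw [hN]
      exact hkN.trans Nat.lt_two_pow_self.le
    · rw [shift_eq]
      apply le_of_forall_pos_lt_add
      intro ε hε
      have h1 := partial_rigid hi hB (ε := 4 * ε) (by positivity)
      have h2 : (1 / 8) * μ.real B - ε / 2 ≤
          liminf (fun k => μ.real (sh^[P k] '' B ∩ B)) atTop := by
        apply le_liminf_of_le
        · exact isCoboundedUnder_ge_of_le atTop (x := 1) fun k => measureReal_le_one
        · filter_upwards [h1] with k hk
          rw [meas_eq hi _ hB]
          linarith
      linarith
    · rintro ⟨n, hn, h⟩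
      rw [shift_eq] at h
      have hev : Measurable (fun z : ℤ → Bool => z 0) := measurable_pi_apply 0
      have hBm : MeasurableSet {z : ℤ → Bool | z 0 = true} := hev (measurableSet_singleton true)
      have h1 := h _ hBm
      have h2 : ∀ᶠ k in atTop, μ.real (sh^[n k] '' {z : ℤ → Bool | z 0 = true} ∩
          {z : ℤ → Bool | z 0 = true}) ≤ μ.real {z : ℤ → Bool | z 0 = true} - 1 / 64 := by
        filter_upwards [hn.eventually_gt_atTop 0] with k hk
        rw [meas_eq hi _ hBm]
        have := not_rigid hi hk
        linarith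
      have := le_of_tendsto h1 h2
      linarith

end Pool.Agent.Results.MP_6420b1_an.ToeplitzPartiallyRigid
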